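import Mathlib

/-!
# Barnes-Wall lattices: the abstract doubling step for infinitesimal rigidity
-/

set_option autoImplicit false

namespace Pool.Agent.R761.BW

open scoped InnerProductSpace

section basic

variable {V : Type} [NormedAddCommGroup V] [InnerProductSpace ℝ V]

/-- multiplication by `1 + i` -/
def th (J : V →ₗ[ℝ] V) : V →ₗ[ℝ] V := LinearMap.id + J

/-- division by `1 + i` -/
noncomputable def hf (J : V →ₗ[ℝ] V) : V →ₗ[ℝ] V := (1 / 2 : ℝ) • (LinearMap.id - J)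

theorem th_apply (J : V →ₗ[ℝ] V) (x : V) : th J x = x + J x := rfl

theorem hf_apply (J : V →ₗ[ℝ] V) (x : V) : hf J x = (1 / 2 : ℝ) • (x - J x) := rfl

/-- congruence modulo `(1+i) L` -/
def Cg (J : V →ₗ[ℝ] V) (L : AddSubgroup V) (x y : V) : Prop := ∃ z ∈ L, y - x = th J z

/-- vectors of `L` with square norm `μ` -/
def Mn (L : AddSubgroup V) (μ : ℝ) (x : V) : Prop := x ∈ L ∧ ⟪x, x⟫_ℝ = μ

/-- infinitesimal flexes of the bar framework of the contacts -/
structure Flex (L : AddSubgroup V) (μ : ℝ) (a : V → V) : Prop where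
  self : ∀ x, Mn L μ x → ⟪a x, x⟫_ℝ = 0
  ct : ∀ x y, Mn L μ x → Mn L μ y → ⟪x, y⟫_ℝ = μ / 2 → ⟪a x, y⟫_ℝ + ⟪a y, x⟫_ℝ = 0

/-- infinitesimal rigidity -/
def Rig (L : AddSubgroup V) (μ : ℝ) : Prop :=
  ∀ a, Flex L μ a → ∃ A : V →ₗ[ℝ] V, (∀ x y, ⟪A x, y⟫_ℝ = - ⟪x, A y⟫_ℝ) ∧ ∀ x, Mn L μ x → a x = A x

structure Good (J : V →ₗ[ℝ] V) (L : AddSubgroup V) (μ : ℝ) : Prop where
  JJ : ∀ x, J (J x) = -x
  Ji : ∀ x y, ⟪J x, J y⟫_ℝ = ⟪x, y⟫_ℝ
  JL : ∀ x ∈ L, J x ∈ L
  pos : 0 < μ
  min : ∀ x ∈ L, x ≠ 0 → μ ≤ ⟪x, x⟫_ℝ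
  ne : ∃ x, Mn L μ x
  fin : {x | Mn L μ x}.Finite
  irr : ∀ x z : V, x ≠ 0 → (∀ g : V →ₗ[ℝ] V, (∀ x y, ⟪g x, g y⟫_ℝ = ⟪x, y⟫_ℝ) →
    (∀ x, g (J x) = J (g x)) → (∀ x ∈ L, Cg J L x (g x)) → ⟪z, g x⟫_ℝ = 0) → z = 0
  lin : ∀ (U : Type) [AddCommGroup U] [Module ℝ U] (G : V → U),
    (∀ v, Mn L μ v → G (-v) = - G v) →
    (∀ f g, Mn L μ f → Mn L μ g → Cg J L f g → ⟪f, g⟫_ℝ = 0 →
      (2 : ℝ) • G (hf J (f + g)) = G f + G (-J f) + G g + G (-J g)) →
    ∃ A : V →ₗ[ℝ] U, ∀ v, Mn L μ v → G v = A v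

variable {J : V →ₗ[ℝ] V} {L : AddSubgroup V} {μ : ℝ}

namespace Good

theorem inner_J (G : Good J L μ) (x y : V) : ⟪J x, y⟫_ℝ = - ⟪x, J y⟫_ℝ := by
  rw [← G.Ji (J x) y, G.JJ, inner_neg_left]

theorem inner_J_self (G : Good J L μ) (x : V) : ⟪x, J x⟫_ℝ = 0 := by
  have h := G.inner_J x x
  rw [real_inner_comm] at h
  linarith

theorem inner_J_self' (G : Good J L μ) (x : V) : ⟪J x, x⟫_ℝ = 0 := by
  rw [real_inner_comm]; exact G.inner_J_self x

theorem hf_th (G : Good J L μ) (x : V) : hf J (th J x) = x := by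
  rw [hf_apply, th_apply, map_add, G.JJ]
  module

theorem th_hf (G : Good J L μ) (x : V) : th J (hf J x) = x := by
  rw [hf_apply, th_apply, map_smul, map_sub, G.JJ]
  module

theorem th_inner (G : Good J L μ) (x y : V) : ⟪th J x, th J y⟫_ℝ = 2 * ⟪x, y⟫_ℝ := by
  rw [th_apply, th_apply, inner_add_left, inner_add_right, inner_add_right, G.Ji, G.inner_J]
  ring

theorem th_J (_G : Good J L μ) (x : V) : th J (J x) = J (th J x) := by
  rw [th_apply, th_apply, map_add]

theorem th_ne (G : Good J L μ) {x : V} (hx : x ≠ 0) : th J x ≠ 0 := by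
  intro h
  apply hx
  rw [← G.hf_th x, h, map_zero]

theorem th_mem (G : Good J L μ) {x : V} (hx : x ∈ L) : th J x ∈ L :=
  L.add_mem hx (G.JL x hx)

theorem cg_refl (_G : Good J L μ) (x : V) : Cg J L x x := ⟨0, L.zero_mem, by simp⟩

theorem cg_symm (_G : Good J L μ) {x y : V} (h : Cg J L x y) : Cg J L y x := by
  obtain ⟨z, hz, h⟩ := h
  refine ⟨-z, L.neg_mem hz, ?_⟩
  rw [map_neg, ← h]; abel

theorem cg_trans (_G : Good J L μ) {x y w : V} (h : Cg J L x y) (h' : Cg J L y w) :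
    Cg J L x w := by
  obtain ⟨z, hz, h⟩ := h
  obtain ⟨z', hz', h'⟩ := h'
  refine ⟨z + z', L.add_mem hz hz', ?_⟩
  rw [map_add, ← h, ← h']; abel

theorem cg_J (G : Good J L μ) {x : V} (hx : x ∈ L) : Cg J L x (J x) := by
  refine ⟨J x, G.JL x hx, ?_⟩
  rw [th_apply, G.JJ]; abel

theorem cg_neg (G : Good J L μ) {x : V} (hx : x ∈ L) : Cg J L x (-x) := by
  have h := G.cg_trans (G.cg_J hx) (G.cg_J (G.JL x hx))
  rwa [G.JJ] at h

theorem cg_negJ (G : Good J L μ) {x : V} (hx : x ∈ L) : Cg J L x (-J x) :=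
  G.cg_trans (G.cg_J hx) (G.cg_neg (G.JL x hx))

theorem mn_J (G : Good J L μ) {x : V} (hx : Mn L μ x) : Mn L μ (J x) :=
  ⟨G.JL x hx.1, by rw [G.Ji]; exact hx.2⟩

theorem mn_neg (_G : Good J L μ) {x : V} (hx : Mn L μ x) : Mn L μ (-x) :=
  ⟨L.neg_mem hx.1, by rw [inner_neg_neg]; exact hx.2⟩

theorem mn_negJ (G : Good J L μ) {x : V} (hx : Mn L μ x) : Mn L μ (-J x) := G.mn_neg (G.mn_J hx)

theorem mn_ne (G : Good J L μ) {x : V} (hx : Mn L μ x) : x ≠ 0 := by
  rintro rfl
  have h := hx.2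
  rw [inner_zero_left] at h
  exact G.pos.ne h

theorem mn_hf (G : Good J L μ) {f g : V} (hf' : Mn L μ f) (hg : Mn L μ g) (hc : Cg J L f g)
    (h0 : ⟪f, g⟫_ℝ = 0) : Mn L μ (hf J (f + g)) := by
  obtain ⟨z, hz, h⟩ := hc
  have h1 : f + g = th J (z + f - J f) := by
    rw [map_sub, map_add, ← h, th_apply, th_apply, G.JJ]
    module
  constructor
  · rw [h1, G.hf_th]
    exact L.sub_mem (L.add_mem hz hf'.1) (G.JL f hf'.1)
  · have h2 := G.th_inner (hf J (f + g)) (hf J (f + g))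
    rw [G.th_hf, inner_add_left, inner_add_right, inner_add_right, real_inner_comm f g, h0,
      hf'.2, hg.2] at h2
    linarith

theorem orth (G : Good J L μ) {f g : V} (hf' : Mn L μ f) (hg : Mn L μ g) (hc : Cg J L f g) :
    g = f ∨ g = -f ∨ ⟪f, g⟫_ℝ = 0 := by
  by_cases h1 : g = f
  · exact Or.inl h1
  by_cases h2 : g = -f
  · exact Or.inr (Or.inl h2)
  refine Or.inr (Or.inr ?_)
  have key : ∀ g', Mn L μ g' → Cg J L f g' → g' ≠ f → ⟪f, g'⟫_ℝ ≤ 0 := by
    intro g' hg' hc' hne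
    obtain ⟨z, hz, h⟩ := hc'
    have hz0 : z ≠ 0 := by
      rintro rfl
      rw [map_zero, sub_eq_zero] at h
      exact hne h
    have h3 := G.min z hz hz0
    have h4 := G.th_inner z z
    rw [← h, inner_sub_left, inner_sub_right, inner_sub_right, hf'.2, hg'.2,
      real_inner_comm f g'] at h4
    linarith
  have h3 := key g hg hc h1
  have h4 := key (-g) (G.mn_neg hg) (G.cg_trans hc (G.cg_neg hg.1)) (fun h => h2 (by rw [← h, neg_neg]))
  rw [inner_neg_right] at h4
  linarith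

/-- a vector orthogonal to a whole class of minimal vectors is zero -/
theorem span (G : Good J L μ) {u : V} (hu : Mn L μ u) (z : V)
    (h : ∀ w, Mn L μ w → Cg J L u w → ⟪z, w⟫_ℝ = 0) : z = 0 := by
  refine G.irr u z (G.mn_ne hu) fun g hg1 hg2 hg3 => ?_
  have hc := hg3 u hu.1
  refine h (g u) ⟨?_, by rw [hg1]; exact hu.2⟩ hc
  obtain ⟨y, hy, hyy⟩ := hc
  have : g u = u + th J y := by rw [← hyy]; abel
  rw [this]
  exact L.add_mem hu.1 (G.th_mem hy)

theorem span_all (G : Good J L μ) (z : V) (h : ∀ w, Mn L μ w → ⟪z, w⟫_ℝ = 0) : z = 0 := by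
  obtain ⟨u, hu⟩ := G.ne
  exact G.span hu z fun w hw _ => h w hw

theorem ext_class (G : Good J L μ) {U : Type} [AddCommGroup U] [Module ℝ U] (G1 G2 : V →ₗ[ℝ] U)
    {u : V} (hu : Mn L μ u) (h : ∀ v, Mn L μ v → Cg J L u v → G1 v = G2 v) : G1 = G2 := by
  have hs : Submodule.span ℝ {x | Mn L μ x ∧ Cg J L u x} = ⊤ := by
    have hfin : {x | Mn L μ x ∧ Cg J L u x}.Finite := G.fin.subset fun x hx => hx.1
    have hfd : FiniteDimensional ℝ (Submodule.span ℝ {x | Mn L μ x ∧ Cg J L u x}) :=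
      FiniteDimensional.span_of_finite ℝ hfin
    have h1 : (Submodule.span ℝ {x | Mn L μ x ∧ Cg J L u x})ᗮ = ⊥ := by
      rw [Submodule.eq_bot_iff]
      intro z hz
      refine G.span hu z fun w hw hc => ?_
      rw [Submodule.mem_orthogonal'] at hz
      exact hz w (Submodule.subset_span ⟨hw, hc⟩)
    exact (Submodule.orthogonal_eq_bot_iff).mp h1
  exact LinearMap.ext_on hs fun v hv => h v hv.1 hv.2

theorem ext_all (G : Good J L μ) {U : Type} [AddCommGroup U] [Module ℝ U] (G1 G2 : V →ₗ[ℝ] U)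
    (h : ∀ v, Mn L μ v → G1 v = G2 v) : G1 = G2 := by
  obtain ⟨u, hu⟩ := G.ne
  exact G.ext_class G1 G2 hu fun v hv _ => h v hv

/-- two linear maps which are skew adjoint to each other on congruent minimal vectors -/
theorem skew_of_class (G : Good J L μ) (B B' : V →ₗ[ℝ] V)
    (h : ∀ u w, Mn L μ u → Mn L μ w → Cg J L u w → ⟪B u, w⟫_ℝ = - ⟪u, B' w⟫_ℝ) (x y : V) :
    ⟪B x, y⟫_ℝ = - ⟪x, B' y⟫_ℝ := by
  have h1 : ∀ u, Mn L μ u → ∀ y, ⟪B u, y⟫_ℝ = - ⟪u, B' y⟫_ℝ := by
    intro u hu y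
    have := G.ext_class (innerₗ V (B u)) (-(innerₗ V u ∘ₗ B')) hu (fun w hw hc => by
      simpa using h u w hu hw hc)
    have := congrArg (fun l => l y) this
    simpa using this
  have := G.ext_all (innerₗ V y ∘ₗ B) (-(innerₗ V (B' y))) (fun u hu => by
    have h2 := h1 u hu y
    rw [real_inner_comm, real_inner_comm (B' y) u] at h2
    simpa using h2)
  have := congrArg (fun l => l x) this
  rw [real_inner_comm, real_inner_comm (B' y) x]
  simpa using this

end Good

/-- The equations satisfied by the components of a flex of the doubled configuration. -/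
structure Sys (J : V →ₗ[ℝ] V) (L : AddSubgroup V) (μ : ℝ) (b c : V → V → V)
    (p q q' p' : V → V) : Prop where
  h1 : ∀ u w v, Mn L μ u → Mn L μ w → Cg J L u w → Mn L μ v → ⟪th J v, u⟫_ℝ = μ →
    ⟪b u w, th J v⟫_ℝ + ⟪p v, u⟫_ℝ + ⟪q v, w⟫_ℝ = 0
  h2 : ∀ u w v, Mn L μ u → Mn L μ w → Cg J L u w → Mn L μ v → ⟪th J v, w⟫_ℝ = μ →
    ⟪c u w, th J v⟫_ℝ + ⟪p' v, w⟫_ℝ + ⟪q' v, u⟫_ℝ = 0
  h3 : ∀ u w, Mn L μ u → Mn L μ w → Cg J L u w → ⟪b u w, u⟫_ℝ + ⟪c u w, w⟫_ℝ = 0
  h4 : ∀ u w, Mn L μ u → Mn L μ w → Cg J L u w →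
    ⟪b u w, u⟫_ℝ + ⟪c u w, J w⟫_ℝ + (⟪b u (J w), u⟫_ℝ + ⟪c u (J w), w⟫_ℝ) = 0
  h5 : ∀ u w, Mn L μ u → Mn L μ w → Cg J L u w →
    ⟪b u w, J u⟫_ℝ + ⟪c u w, w⟫_ℝ + (⟪b (J u) w, u⟫_ℝ + ⟪c (J u) w, w⟫_ℝ) = 0

variable {b c : V → V → V} {p q q' p' : V → V}

theorem Sys.swap (S : Sys J L μ b c p q q' p') (G : Good J L μ) :
    Sys J L μ (fun w u => c u w) (fun w u => b u w) p' q' q p where
  h1 u w v hu hw hc hv h := by
    exact S.h2 w u v hw hu (G.cg_symm hc) hv h
  h2 u w v hu hw hc hv h := by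
    exact S.h1 w u v hw hu (G.cg_symm hc) hv h
  h3 u w hu hw hc := by
    have := S.h3 w u hw hu (G.cg_symm hc)
    linarith
  h4 u w hu hw hc := by
    have := S.h5 w u hw hu (G.cg_symm hc)
    linarith
  h5 u w hu hw hc := by
    have := S.h4 w u hw hu (G.cg_symm hc)
    linarith

theorem Sys.sub (S : Sys J L μ b c p q q' p') (A0 A1 : V →ₗ[ℝ] V)
    (hA0 : ∀ x y, ⟪A0 x, y⟫_ℝ = - ⟪x, A0 y⟫_ℝ) (hA1 : ∀ x y, ⟪A1 x, y⟫_ℝ = - ⟪x, A1 y⟫_ℝ) :
    Sys J L μ (fun u w => b u w - A0 u) (fun u w => c u w - A1 w)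
      (fun v => p v - A0 (th J v)) q q' (fun v => p' v - A1 (th J v)) where
  h1 u w v hu hw hc hv h := by
    have h1 := S.h1 u w v hu hw hc hv h
    have h2 := hA0 u (th J v)
    have h3 := real_inner_comm (A0 (th J v)) u
    simp only [inner_sub_left]
    linarith
  h2 u w v hu hw hc hv h := by
    have h1 := S.h2 u w v hu hw hc hv h
    have h2 := hA1 w (th J v)
    have h3 := real_inner_comm (A1 (th J v)) w
    simp only [inner_sub_left]
    linarith
  h3 u w hu hw hc := by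
    have h1 := S.h3 u w hu hw hc
    have h2 := hA0 u u
    have h3 := hA1 w w
    have h4 := real_inner_comm (A0 u) u
    have h5 := real_inner_comm (A1 w) w
    simp only [inner_sub_left]
    linarith
  h4 u w hu hw hc := by
    have h1 := S.h4 u w hu hw hc
    have h2 := hA0 u u
    have h3 := hA1 w (J w)
    have h4 := real_inner_comm (A0 u) u
    have h5 := real_inner_comm (A1 (J w)) w
    simp only [inner_sub_left]
    linarith
  h5 u w hu hw hc := by
    have h1 := S.h5 u w hu hw hc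
    have h2 := hA0 u (J u)
    have h3 := hA1 w w
    have h4 := real_inner_comm (A0 (J u)) u
    have h5 := real_inner_comm (A1 w) w
    simp only [inner_sub_left]
    linarith

/-- the values of the first component along `u` and `J u` -/
theorem Sys.bu (S : Sys J L μ b c p q q' p') (G : Good J L μ) {u w : V} (hu : Mn L μ u)
    (hw : Mn L μ w) (hc : Cg J L u w) :
    2 * ⟪b u w, u⟫_ℝ = - ⟪p u + p (-J u), u⟫_ℝ - ⟪q u + q (-J u), w⟫_ℝ ∧
    2 * ⟪b u w, J u⟫_ℝ = - ⟪p u - p (-J u), u⟫_ℝ - ⟪q u - q (-J u), w⟫_ℝ := by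
  have h1 := S.h1 u w u hu hw hc hu (by
    rw [th_apply, inner_add_left, G.inner_J_self', hu.2, add_zero])
  have h2 := S.h1 u w (-J u) hu hw hc (G.mn_negJ hu) (by
    rw [th_apply, map_neg, G.JJ, neg_neg, inner_add_left, inner_neg_left, G.inner_J_self', hu.2]
    ring)
  rw [th_apply] at h1 h2
  rw [map_neg, G.JJ, neg_neg] at h2
  simp only [inner_add_left, inner_add_right, inner_neg_right, inner_sub_left] at *
  constructor <;> linarith

theorem Sys.cw (S : Sys J L μ b c p q q' p') (G : Good J L μ) {u w : V} (hu : Mn L μ u)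
    (hw : Mn L μ w) (hc : Cg J L u w) :
    2 * ⟪c u w, w⟫_ℝ = - ⟪p' w + p' (-J w), w⟫_ℝ - ⟪q' w + q' (-J w), u⟫_ℝ ∧
    2 * ⟪c u w, J w⟫_ℝ = - ⟪p' w - p' (-J w), w⟫_ℝ - ⟪q' w - q' (-J w), u⟫_ℝ :=
  (S.swap G).bu G hw hu (G.cg_symm hc)

/-- the equation obtained from the contact of `(u,w)` and `(u, J w)` -/
theorem Sys.key (S : Sys J L μ b c p q q' p') (G : Good J L μ) {u w : V} (hu : Mn L μ u)
    (hw : Mn L μ w) (hc : Cg J L u w) :
    - 2 * ⟪p u + p (-J u), u⟫_ℝ - ⟪q u + q (-J u), w + J w⟫_ℝ +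
      (⟪p' (J w) - p' w, J w⟫_ℝ - ⟪p' w - p' (-J w), w⟫_ℝ) +
      ⟪q' (J w) + q' (-J w) - (2 : ℝ) • q' w, u⟫_ℝ = 0 := by
  have hJw := G.mn_J hw
  have hc' : Cg J L u (J w) := G.cg_trans hc (G.cg_J hw.1)
  have h1 := (S.bu G hu hw hc).1
  have h2 := (S.bu G hu hJw hc').1
  have h3 := (S.cw G hu hw hc).2
  have h4 := (S.cw G hu hJw hc').2
  have h5 := S.h4 u w hu hw hc
  rw [G.JJ, neg_neg] at h4
  simp only [inner_add_left, inner_add_right, inner_neg_right, inner_sub_left, inner_smul_left,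
    inner_sub_right] at *
  simp only [conj_trivial] at *
  linarith

/-- no first order twist -/
theorem Sys.P0 (S : Sys J L μ b c p q q' p') (G : Good J L μ) {u : V} (hu : Mn L μ u) :
    ⟪p u + p (-J u), u⟫_ℝ = 0 := by
  have hJ := G.mn_J hu
  have hn := G.mn_neg hu
  have hnJ := G.mn_negJ hu
  have h1 := S.key G hu hu (G.cg_refl u)
  have h2 := S.key G hu hJ (G.cg_J hu.1)
  have h3 := S.key G hu hn (G.cg_neg hu.1)
  have h4 := S.key G hu hnJ (G.cg_negJ hu.1)
  simp only [map_neg, G.JJ, neg_neg] at h1 h2 h3 h4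
  simp only [inner_add_left, inner_add_right, inner_neg_right, inner_sub_left, inner_smul_left,
    inner_sub_right, conj_trivial] at *
  linarith

section zero

theorem Sys.odd' (S : Sys J L μ b c (fun _ => 0) q q' (fun _ => 0)) (G : Good J L μ) {w : V}
    (hw : Mn L μ w) : q' (-w) = - q' w := by
  have key : ∀ w, Mn L μ w → q' (J w) + q' (- J w) = 0 := by
    intro w hw
    refine G.span hw _ fun u hu hcu => ?_
    have hc := G.cg_symm hcu
    have h1 := S.key G hu hw hc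
    have hJw := G.mn_J hw
    have hc' : Cg J L u (J w) := G.cg_trans hc (G.cg_J hw.1)
    have h2 := (S.bu G hu hw hc).1
    have h3 := (S.cw G hu hw hc).1
    have h4 := S.h3 u w hu hw hc
    have h5 := (S.bu G hu hJw hc').1
    have h6 := (S.cw G hu hJw hc').1
    have h7 := S.h3 u (J w) hu hJw hc'
    simp only [G.JJ, neg_neg] at h1 h2 h3 h4 h5 h6 h7
    simp only [inner_add_left, inner_add_right, inner_neg_right, inner_sub_left, inner_smul_left,
      inner_sub_right, conj_trivial, inner_zero_left] at *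
    linarith
  have h := key (J w) (G.mn_J hw)
  rw [G.JJ, neg_neg] at h
  exact eq_neg_of_add_eq_zero_left h

theorem Sys.odd (S : Sys J L μ b c (fun _ => 0) q q' (fun _ => 0)) (G : Good J L μ) {w : V}
    (hw : Mn L μ w) : q (-w) = - q w := (S.swap G).odd' G hw

theorem Sys.L1 (S : Sys J L μ b c (fun _ => 0) q q' (fun _ => 0)) (G : Good J L μ) {u f : V}
    (hu : Mn L μ u) (hf' : Mn L μ f) (hc : Cg J L u f) (h0 : ⟪u, f⟫_ℝ = 0) :
    q (hf J (u + f)) + q (hf J (u - f)) = q u + q (- J u) := by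
  rw [← sub_eq_zero]
  refine G.span hu _ fun w hw hcw => ?_
  have h1 := S.h1 u w (hf J (u + f)) hu hw hcw (G.mn_hf hu hf' hc h0) (by
    rw [G.th_hf, inner_add_left, hu.2, real_inner_comm, h0, add_zero])
  have h2 := S.h1 u w (hf J (u - f)) hu hw hcw (by
    rw [sub_eq_add_neg]
    exact G.mn_hf hu (G.mn_neg hf') (G.cg_trans hc (G.cg_neg hf'.1)) (by
      rw [inner_neg_right, h0, neg_zero])) (by
    rw [G.th_hf, inner_sub_left, hu.2, real_inner_comm, h0, sub_zero])
  have h3 := (S.bu G hu hw hcw).1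
  rw [G.th_hf] at h1 h2
  simp only [inner_add_left, inner_add_right, inner_neg_right, inner_sub_left, inner_smul_left,
      inner_sub_right, conj_trivial, inner_zero_left] at *
  linarith

theorem Sys.L2 (S : Sys J L μ b c (fun _ => 0) q q' (fun _ => 0)) (G : Good J L μ) {u f : V}
    (hu : Mn L μ u) (hf' : Mn L μ f) (hc : Cg J L u f) (h0 : ⟪u, f⟫_ℝ = 0) :
    (2 : ℝ) • q (hf J (u + f)) = q u + q (- J u) + q f + q (-J f) := by
  have h1 := S.L1 G hu hf' hc h0
  have h2 := S.L1 G hf' hu (G.cg_symm hc) (by rw [real_inner_comm]; exact h0)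
  have h3 : Mn L μ (hf J (u - f)) := by
    rw [sub_eq_add_neg]
    exact G.mn_hf hu (G.mn_neg hf') (G.cg_trans hc (G.cg_neg hf'.1)) (by
      rw [inner_neg_right, h0, neg_zero])
  have h4 := S.odd G h3
  have h5 : hf J (f - u) = - hf J (u - f) := by rw [← map_neg]; congr 1; abel
  rw [h5, h4, add_comm f u] at h2
  have h6 : (2 : ℝ) • q (hf J (u + f)) =
      (q (hf J (u + f)) + q (hf J (u - f))) + (q (hf J (u + f)) + - q (hf J (u - f))) := by
    rw [two_smul]; abel
  rw [h6, h1, h2]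
  abel

theorem Sys.lin (S : Sys J L μ b c (fun _ => 0) q q' (fun _ => 0)) (G : Good J L μ) :
    ∃ C : V →ₗ[ℝ] V, ∀ v, Mn L μ v → q v = C (th J v) := by
  obtain ⟨A, hA⟩ := G.lin V q (fun v hv => S.odd G hv)
    (fun f g hf' hg hc h0 => S.L2 G hf' hg hc h0)
  refine ⟨A ∘ₗ hf J, fun v hv => ?_⟩
  rw [LinearMap.comp_apply, G.hf_th, hA v hv]

theorem Sys.b_eq (S : Sys J L μ b c (fun _ => 0) q q' (fun _ => 0)) (G : Good J L μ)
    (B B' : V →ₗ[ℝ] V) (hBB : ∀ x y, ⟪B x, y⟫_ℝ = - ⟪x, B' y⟫_ℝ)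
    (hB : ∀ v, Mn L μ v → q v = B (th J v)) {u w : V} (hu : Mn L μ u) (hw : Mn L μ w)
    (hc : Cg J L u w) : b u w = B' w := by
  rw [← sub_eq_zero]
  have h1 : ⟪b u w, u⟫_ℝ = ⟪B' w, u⟫_ℝ := by
    have h1 := (S.bu G hu hw hc).1
    have e1 : q u + q (-J u) = (2 : ℝ) • B u := by
      rw [hB u hu, hB _ (G.mn_negJ hu), ← map_add, ← map_smul, th_apply, th_apply, map_neg, G.JJ]
      congr 1
      module
    rw [e1] at h1
    simp only [inner_add_left, inner_smul_left, conj_trivial, inner_zero_left] at h1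
    have h2 := hBB u w
    have h3 := real_inner_comm u (B' w)
    linarith
  refine G.span hu _ fun f hf' hcf => ?_
  rw [inner_sub_left, sub_eq_zero]
  rcases G.orth hu hf' hcf with rfl | rfl | h0
  · exact h1
  · rw [inner_neg_right, inner_neg_right, h1]
  · have h2 := S.h1 u w (hf J (u + f)) hu hw hc (G.mn_hf hu hf' hcf h0) (by
      rw [G.th_hf, inner_add_left, hu.2, real_inner_comm, h0, add_zero])
    rw [hB _ (G.mn_hf hu hf' hcf h0), G.th_hf, hBB] at h2
    have h3 := real_inner_comm (u + f) (B' w)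
    simp only [inner_add_left, inner_add_right, inner_zero_left] at h2 h3
    linarith

/-- The main algebraic step, for a flex whose diagonal part vanishes. -/
theorem Sys.main (S : Sys J L μ b c (fun _ => 0) q q' (fun _ => 0)) (G : Good J L μ) :
    ∃ B B' : V →ₗ[ℝ] V, (∀ x y, ⟪B x, y⟫_ℝ = - ⟪x, B' y⟫_ℝ) ∧
      (∀ v, Mn L μ v → q v = B (th J v)) ∧ (∀ v, Mn L μ v → q' v = B' (th J v)) ∧
      (∀ u w, Mn L μ u → Mn L μ w → Cg J L u w → b u w = B' w) ∧
      (∀ u w, Mn L μ u → Mn L μ w → Cg J L u w → c u w = B u) := by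
  obtain ⟨B, hB⟩ := S.lin G
  obtain ⟨B', hB'⟩ := (S.swap G).lin G
  have e1 : ∀ v, Mn L μ v → q v + q (-J v) = (2 : ℝ) • B v := by
    intro v hv
    rw [hB v hv, hB _ (G.mn_negJ hv), ← map_add, ← map_smul, th_apply, th_apply, map_neg, G.JJ]
    congr 1
    module
  have e1' : ∀ v, Mn L μ v → q' v + q' (-J v) = (2 : ℝ) • B' v := by
    intro v hv
    rw [hB' v hv, hB' _ (G.mn_negJ hv), ← map_add, ← map_smul, th_apply, th_apply, map_neg, G.JJ]
    congr 1
    module
  -- skewness on congruent pairs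
  have e2 : ∀ u w, Mn L μ u → Mn L μ w → Cg J L u w → ⟪B u, w⟫_ℝ = - ⟪u, B' w⟫_ℝ := by
    intro u w hu hw hc
    have h1 := (S.bu G hu hw hc).1
    have h2 := (S.cw G hu hw hc).1
    have h3 := S.h3 u w hu hw hc
    rw [e1 u hu] at h1
    rw [e1' w hw] at h2
    simp only [inner_add_left, inner_smul_left, conj_trivial, inner_zero_left] at h1 h2
    have h4 := real_inner_comm u (B' w)
    linarith
  have e3 := G.skew_of_class B B' e2
  have e3' : ∀ x y, ⟪B' x, y⟫_ℝ = - ⟪x, B y⟫_ℝ := by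
    intro x y
    rw [real_inner_comm, real_inner_comm (B y) x, e3, neg_neg]
  exact ⟨B, B', e3, hB, hB', fun u w hu hw hc => S.b_eq G B B' e3 hB hu hw hc,
    fun u w hu hw hc => (S.swap G).b_eq G B' B e3' hB' hw hu (G.cg_symm hc)⟩

end zero

/-- The diagonal part of a flex of the doubled configuration is rigid. -/
def DiagProp (J : V →ₗ[ℝ] V) (L : AddSubgroup V) (μ : ℝ) : Prop :=
  ∀ p : V → V, (∀ v, Mn L μ v → ⟪p v, th J v⟫_ℝ = 0) →
    (∀ v v', Mn L μ v → Mn L μ v' → ⟪v, v'⟫_ℝ = μ / 2 → ⟪p v, th J v'⟫_ℝ + ⟪p v', th J v⟫_ℝ = 0) →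
    (∀ v, Mn L μ v → ⟪p v + p (-J v), v⟫_ℝ = 0) →
    ∃ A : V →ₗ[ℝ] V, (∀ x y, ⟪A x, y⟫_ℝ = - ⟪x, A y⟫_ℝ) ∧ ∀ v, Mn L μ v → p v = A (th J v)

theorem Good.th_adj (G : Good J L μ) (x y : V) : ⟪x, th J y⟫_ℝ = ⟪x - J x, y⟫_ℝ := by
  rw [th_apply, inner_add_right, inner_sub_left, G.inner_J]
  ring

theorem diag_of_rig (G : Good J L μ) (R : Rig L μ) : DiagProp J L μ := by
  intro p hp1 hp2 _
  obtain ⟨A, hA, hpA⟩ := R (fun v => p v - J (p v)) ⟨fun v hv => by
    rw [← G.th_adj]; exact hp1 v hv, fun v v' hv hv' h => by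
    rw [← G.th_adj, ← G.th_adj]; exact hp2 v v' hv hv' h⟩
  refine ⟨(1 / 2 : ℝ) • (th J ∘ₗ A ∘ₗ hf J), ?_, ?_⟩
  · intro x y
    have h1 : ∀ z, hf J z = (1 / 2 : ℝ) • (z - J z) := fun z => rfl
    have h2 : ⟪th J (A (hf J x)), y⟫_ℝ = ⟪A (hf J x), y - J y⟫_ℝ := by
      rw [real_inner_comm, G.th_adj, real_inner_comm]
    have h3 : ⟪x, th J (A (hf J y))⟫_ℝ = ⟪x - J x, A (hf J y)⟫_ℝ := G.th_adj _ _
    simp only [LinearMap.smul_apply, LinearMap.comp_apply, inner_smul_left, inner_smul_right,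
      conj_trivial]
    rw [h2, h3, hA, h1 x, h1 y, map_smul]
    simp only [inner_smul_left, inner_smul_right, conj_trivial]
    ring
  · intro v hv
    have h1 := hpA v hv
    simp only [LinearMap.smul_apply, LinearMap.comp_apply]
    rw [G.hf_th, ← h1, th_apply, map_sub, G.JJ]
    module

end basic

section dbl

variable {V V' : Type} [NormedAddCommGroup V] [InnerProductSpace ℝ V]
  [NormedAddCommGroup V'] [InnerProductSpace ℝ V']

/-- `(V', J', L')` is the double of `(V, J, L)`. -/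
structure Dbl (J : V →ₗ[ℝ] V) (L : AddSubgroup V) (J' : V' →ₗ[ℝ] V') (L' : AddSubgroup V')
    (e : V' ≃ₗ[ℝ] V × V) : Prop where
  he : ∀ x y, ⟪x, y⟫_ℝ = ⟪(e x).1, (e y).1⟫_ℝ + ⟪(e x).2, (e y).2⟫_ℝ
  hJ : ∀ x, e (J' x) = (J (e x).1, J (e x).2)
  hL : ∀ x, x ∈ L' ↔ (e x).1 ∈ L ∧ Cg J L (e x).1 (e x).2

variable {J : V →ₗ[ℝ] V} {L : AddSubgroup V} {μ : ℝ} {J' : V' →ₗ[ℝ] V'} {L' : AddSubgroup V'}
  {e : V' ≃ₗ[ℝ] V × V}

namespace Dbl

theorem mk_inner (D : Dbl J L J' L' e) (a b c d : V) :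
    ⟪e.symm (a, b), e.symm (c, d)⟫_ℝ = ⟪a, c⟫_ℝ + ⟪b, d⟫_ℝ := by
  rw [D.he, e.apply_symm_apply, e.apply_symm_apply]

theorem inner_mk (D : Dbl J L J' L' e) (x : V') (c d : V) :
    ⟪x, e.symm (c, d)⟫_ℝ = ⟪(e x).1, c⟫_ℝ + ⟪(e x).2, d⟫_ℝ := by
  rw [D.he, e.apply_symm_apply]

theorem J_mk (D : Dbl J L J' L' e) (a b : V) : J' (e.symm (a, b)) = e.symm (J a, J b) := by
  apply e.injective
  rw [D.hJ, e.apply_symm_apply, e.apply_symm_apply]

theorem th_mk (D : Dbl J L J' L' e) (a b : V) :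
    th J' (e.symm (a, b)) = e.symm (th J a, th J b) := by
  rw [th_apply, D.J_mk, ← map_add]; rfl

theorem mk_mem (D : Dbl J L J' L' e) (a b : V) : e.symm (a, b) ∈ L' ↔ a ∈ L ∧ Cg J L a b := by
  rw [D.hL, e.apply_symm_apply]

theorem neg_mk (e : V' ≃ₗ[ℝ] V × V) (a b : V) : - e.symm (a, b) = e.symm (-a, -b) := by
  rw [← map_neg]; rfl

theorem add_mk (e : V' ≃ₗ[ℝ] V × V) (a b c d : V) :
    e.symm (a, b) + e.symm (c, d) = e.symm (a + c, b + d) := by
  rw [← map_add]; rfl

theorem hf_mk (D : Dbl J L J' L' e) (a b : V) :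
    hf J' (e.symm (a, b)) = e.symm (hf J a, hf J b) := by
  rw [hf_apply, D.J_mk, ← map_sub, ← map_smul]; rfl

theorem mk_mem_of (D : Dbl J L J' L' e) {a b : V} (ha : a ∈ L) (_hb : b ∈ L) (h : Cg J L a b) :
    e.symm (a, b) ∈ L' := by
  rw [D.mk_mem]; exact ⟨ha, h⟩

theorem snd_mem (D : Dbl J L J' L' e) (G : Good J L μ) {x : V'} (hx : x ∈ L') : (e x).2 ∈ L := by
  obtain ⟨h1, z, hz, h2⟩ := (D.hL x).mp hx
  have : (e x).2 = (e x).1 + th J z := by rw [← h2]; abel
  rw [this]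
  exact L.add_mem h1 (G.th_mem hz)

theorem cg_mk (D : Dbl J L J' L' e) {a b c d : V} (x y : V) (hx : x ∈ L) (h : Cg J L x y)
    (h1 : c - a = th J x) (h2 : d - b = th J y) :
    Cg J' L' (e.symm (a, b)) (e.symm (c, d)) := by
  refine ⟨e.symm (x, y), (D.mk_mem x y).mpr ⟨hx, h⟩, ?_⟩
  rw [D.th_mk, ← map_sub, Prod.mk_sub_mk, h1, h2]

theorem mn_left (D : Dbl J L J' L' e) (G : Good J L μ) {v : V} (hv : Mn L μ v) :
    Mn L' (2 * μ) (e.symm (th J v, 0)) := by
  refine ⟨D.mk_mem_of (G.th_mem hv.1) L.zero_mem ⟨-v, L.neg_mem hv.1, ?_⟩, ?_⟩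
  · rw [map_neg]; abel
  · rw [D.mk_inner, G.th_inner, hv.2, inner_zero_left, add_zero]

theorem mn_right (D : Dbl J L J' L' e) (G : Good J L μ) {v : V} (hv : Mn L μ v) :
    Mn L' (2 * μ) (e.symm (0, th J v)) := by
  refine ⟨D.mk_mem_of L.zero_mem (G.th_mem hv.1) ⟨v, hv.1, ?_⟩, ?_⟩
  · abel
  · rw [D.mk_inner, G.th_inner, hv.2, inner_zero_left, zero_add]

theorem mn_mk (D : Dbl J L J' L' e) {u w : V} (hu : Mn L μ u) (hw : Mn L μ w)
    (hc : Cg J L u w) : Mn L' (2 * μ) (e.symm (u, w)) := by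
  refine ⟨D.mk_mem_of hu.1 hw.1 hc, ?_⟩
  rw [D.mk_inner, hu.2, hw.2]; ring

theorem mn_cases (D : Dbl J L J' L' e) (G : Good J L μ) {x : V'} (hx : Mn L' (2 * μ) x) :
    (∃ v, Mn L μ v ∧ x = e.symm (th J v, 0)) ∨ (∃ v, Mn L μ v ∧ x = e.symm (0, th J v)) ∨
    (∃ u w, Mn L μ u ∧ Mn L μ w ∧ Cg J L u w ∧ x = e.symm (u, w)) := by
  obtain ⟨u, w, rfl⟩ : ∃ u w, x = e.symm (u, w) := ⟨(e x).1, (e x).2, by simp⟩
  have h1 := hx.1
  have h2 := hx.2
  have hwL := D.snd_mem G h1
  rw [e.apply_symm_apply] at hwL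
  simp only at hwL
  rw [D.mk_mem] at h1
  rw [D.mk_inner] at h2
  obtain ⟨huL, z, hz, hzz⟩ := h1
  by_cases hu : u = 0
  · subst hu
    right; left
    rw [sub_zero] at hzz
    subst hzz
    rw [inner_zero_left, zero_add, G.th_inner] at h2
    exact ⟨z, ⟨hz, by linarith⟩, rfl⟩
  by_cases hw : w = 0
  · subst hw
    left
    have h3 : u = th J (-z) := by rw [map_neg, ← hzz]; abel
    rw [inner_zero_left, add_zero, h3, G.th_inner] at h2
    refine ⟨-z, ⟨L.neg_mem hz, by linarith⟩, by rw [h3]⟩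
  right; right
  have h3 := G.min u huL hu
  have h4 := G.min w hwL hw
  exact ⟨u, w, ⟨huL, by linarith⟩, ⟨hwL, by linarith⟩, ⟨z, hz, hzz⟩, rfl⟩

end Dbl

theorem good_dbl (G : Good J L μ) (D : Dbl J L J' L' e) : Good J' L' (2 * μ) where
  JJ x := by
    apply e.injective
    rw [D.hJ, D.hJ, map_neg]
    simp only [G.JJ]
    rfl
  Ji x y := by
    rw [D.he, D.he x y, D.hJ, D.hJ, G.Ji, G.Ji]
  JL x hx := by
    obtain ⟨h1, z, hz, h2⟩ := (D.hL x).mp hx
    rw [D.hL, D.hJ]
    refine ⟨G.JL _ h1, J z, G.JL z hz, ?_⟩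
    simp only
    rw [← map_sub, h2, G.th_J]
  pos := by have := G.pos; linarith
  min x hx hx0 := by
    obtain ⟨h1, z, hz, h2⟩ := (D.hL x).mp hx
    have hw := D.snd_mem G hx
    rw [D.he]
    by_cases hu0 : (e x).1 = 0
    · rw [hu0, sub_zero] at h2
      rw [hu0, inner_zero_left, zero_add, h2, G.th_inner]
      have hz0 : z ≠ 0 := by
        rintro rfl
        apply hx0
        apply e.injective
        rw [map_zero] at h2 ⊢
        exact Prod.ext hu0 h2
      have := G.min z hz hz0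
      linarith
    by_cases hw0 : (e x).2 = 0
    · rw [hw0, zero_sub] at h2
      have h3 : (e x).1 = th J (-z) := by rw [map_neg, ← h2, neg_neg]
      rw [hw0, inner_zero_left, add_zero, h3, G.th_inner]
      have hz0 : -z ≠ 0 := by
        intro h
        rw [h, map_zero] at h3
        exact hu0 h3
      have := G.min (-z) (L.neg_mem hz) hz0
      linarith
    have h3 := G.min _ h1 hu0
    have h4 := G.min _ hw hw0
    linarith
  ne := by
    obtain ⟨v, hv⟩ := G.ne
    exact ⟨_, D.mn_left G hv⟩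
  fin := by
    have hf1 : ((fun v => e.symm (th J v, 0)) '' {v | Mn L μ v}).Finite := G.fin.image _
    have hf2 : ((fun v => e.symm (0, th J v)) '' {v | Mn L μ v}).Finite := G.fin.image _
    have hf3 : ((fun v : V × V => e.symm v) '' ({v | Mn L μ v} ×ˢ {v | Mn L μ v})).Finite :=
      (G.fin.prod G.fin).image _
    refine ((hf1.union hf2).union hf3).subset ?_
    intro x hx
    rcases D.mn_cases G hx with ⟨v, hv, rfl⟩ | ⟨v, hv, rfl⟩ | ⟨u, w, hu, hw, -, rfl⟩
    · exact Or.inl (Or.inl ⟨v, hv, rfl⟩)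
    · exact Or.inl (Or.inr ⟨v, hv, rfl⟩)
    · exact Or.inr ⟨(u, w), ⟨hu, hw⟩, rfl⟩
  irr x z hx h := by
    obtain ⟨x0, x1, rfl⟩ : ∃ u w, x = e.symm (u, w) := ⟨(e x).1, (e x).2, by simp⟩
    obtain ⟨z0, z1, rfl⟩ : ∃ u w, z = e.symm (u, w) := ⟨(e z).1, (e z).2, by simp⟩
    -- the four families of maps
    have key : ∀ g : V →ₗ[ℝ] V, (∀ x y, ⟪g x, g y⟫_ℝ = ⟪x, y⟫_ℝ) → (∀ x, g (J x) = J (g x)) →
        (∀ x ∈ L, Cg J L x (g x)) →
        ⟪z0, g x0⟫_ℝ = 0 ∧ ⟪z1, g x1⟫_ℝ = 0 ∧ ⟪z0, g x1⟫_ℝ = 0 ∧ ⟪z1, g x0⟫_ℝ = 0 := by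
      intro g hg1 hg2 hg3
      have hgL : ∀ x ∈ L, g x ∈ L := by
        intro x hx
        obtain ⟨y, hy, hyy⟩ := hg3 x hx
        have : g x = x + th J y := by rw [← hyy]; abel
        rw [this]
        exact L.add_mem hx (G.th_mem hy)
      have hgth : ∀ x, g (th J x) = th J (g x) := by
        intro x; rw [th_apply, th_apply, map_add, hg2]
      -- straight maps
      have hs : ∀ s : ℝ, (s = 1 ∨ s = -1) → ⟪z0, g x0⟫_ℝ + s * ⟪z1, g x1⟫_ℝ = 0 := by
        intro s hs
        have := h (e.symm.toLinearMap ∘ₗ (LinearMap.prodMap g (s • g)) ∘ₗ e.toLinearMap)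
          (by
            intro x y
            simp only [LinearMap.comp_apply, LinearEquiv.coe_coe, LinearMap.prodMap_apply,
              LinearMap.smul_apply]
            rw [D.mk_inner, D.he x y, hg1, inner_smul_left, inner_smul_right, hg1, conj_trivial]
            rcases hs with rfl | rfl <;> ring)
          (by
            intro x
            simp only [LinearMap.comp_apply, LinearEquiv.coe_coe, LinearMap.prodMap_apply,
              LinearMap.smul_apply]
            rw [D.hJ, D.J_mk, hg2, hg2, map_smul])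
          (by
            intro x hx
            obtain ⟨h1, z, hz, h2⟩ := (D.hL x).mp hx
            obtain ⟨y0, hy0, hyy0⟩ := hg3 _ h1
            obtain ⟨yz, hyz, hyyz⟩ := hg3 _ hz
            have hw := D.snd_mem G hx
            have hx2 : (e x).2 = (e x).1 + th J z := by rw [← h2]; abel
            have e1 : g (e x).2 - (e x).2 = th J (y0 + th J yz) := by
              rw [hx2, map_add, hgth, map_add, ← hyy0, ← hyyz, map_sub]
              abel
            have ex : x = e.symm ((e x).1, (e x).2) := by simp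
            simp only [LinearMap.comp_apply, LinearEquiv.coe_coe, LinearMap.prodMap_apply,
              LinearMap.smul_apply]
            rw [ex]
            simp only [LinearEquiv.apply_symm_apply]
            rcases hs with rfl | rfl
            · refine D.cg_mk y0 (y0 + th J yz) hy0 ⟨yz, hyz, by abel⟩ hyy0 ?_
              rw [one_smul]; exact e1
            · have hv := hgL _ hw
              refine D.cg_mk y0 ((y0 + th J yz) - (g (e x).2 - J (g (e x).2))) hy0
                ⟨yz + J (g (e x).2), L.add_mem hyz (G.JL _ hv), ?_⟩ hyy0 ?_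
              · rw [map_add, th_apply J (J (g (e x).2)), G.JJ]; abel
              · rw [map_sub, ← e1, th_apply, map_sub, G.JJ]
                module)
        simp only [LinearMap.comp_apply, LinearEquiv.coe_coe, LinearMap.prodMap_apply,
              LinearMap.smul_apply, LinearEquiv.apply_symm_apply] at this
        rw [D.mk_inner, inner_smul_right] at this
        exact this
      -- swapping maps
      have hs' : ∀ s : ℝ, (s = 1 ∨ s = -1) → ⟪z0, g x1⟫_ℝ + s * ⟪z1, g x0⟫_ℝ = 0 := by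
        intro s hs
        have := h (e.symm.toLinearMap ∘ₗ (LinearMap.prodMap g (s • g)) ∘ₗ
            (LinearEquiv.prodComm ℝ V V).toLinearMap ∘ₗ e.toLinearMap)
          (by
            intro x y
            simp only [LinearMap.comp_apply, LinearEquiv.coe_coe, LinearMap.prodMap_apply,
              LinearMap.smul_apply, LinearEquiv.prodComm_apply, Prod.fst_swap, Prod.snd_swap]
            rw [D.mk_inner, D.he x y, hg1, inner_smul_left, inner_smul_right, hg1, conj_trivial]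
            rcases hs with rfl | rfl <;> ring)
          (by
            intro x
            simp only [LinearMap.comp_apply, LinearEquiv.coe_coe, LinearMap.prodMap_apply,
              LinearMap.smul_apply, LinearEquiv.prodComm_apply, Prod.fst_swap, Prod.snd_swap]
            rw [D.hJ, D.J_mk, hg2, hg2, map_smul])
          (by
            intro x hx
            obtain ⟨h1, z, hz, h2⟩ := (D.hL x).mp hx
            obtain ⟨y0, hy0, hyy0⟩ := hg3 _ h1
            obtain ⟨yz, hyz, hyyz⟩ := hg3 _ hz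
            have hw := D.snd_mem G hx
            have hx2 : (e x).2 = (e x).1 + th J z := by rw [← h2]; abel
            have e1 : g (e x).2 - (e x).2 = th J (y0 + th J yz) := by
              rw [hx2, map_add, hgth, map_add, ← hyy0, ← hyyz, map_sub]
              abel
            have e2 : g (e x).2 - (e x).1 = th J (y0 + th J yz + z) := by
              rw [map_add, ← e1, ← h2]; abel
            have ex : x = e.symm ((e x).1, (e x).2) := by simp
            simp only [LinearMap.comp_apply, LinearEquiv.coe_coe, LinearMap.prodMap_apply,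
              LinearMap.smul_apply, LinearEquiv.prodComm_apply, Prod.fst_swap, Prod.snd_swap]
            rw [ex]
            simp only [LinearEquiv.apply_symm_apply]
            have hm : y0 + th J yz + z ∈ L := L.add_mem (L.add_mem hy0 (G.th_mem hyz)) hz
            rcases hs with rfl | rfl
            · refine D.cg_mk (y0 + th J yz + z) (y0 - z) hm
                ⟨-yz - z + J z, L.add_mem (L.sub_mem (L.neg_mem hyz) hz) (G.JL _ hz), ?_⟩ e2 ?_
              · rw [map_add, map_sub, map_neg, th_apply J (J z), G.JJ, th_apply J z]; abel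
              · rw [one_smul, map_sub, ← hyy0, ← h2]; abel
            · have hv := hgL _ h1
              refine D.cg_mk (y0 + th J yz + z) ((y0 - z) - (g (e x).1 - J (g (e x).1))) hm
                ⟨-yz - z + J z + J (g (e x).1), L.add_mem (L.add_mem (L.sub_mem (L.neg_mem hyz) hz)
                  (G.JL _ hz)) (G.JL _ hv), ?_⟩ e2 ?_
              · rw [map_add, map_add, map_sub, map_neg, th_apply J (J z), th_apply J (J (g (e x).1)),
                  G.JJ, G.JJ, th_apply J z]; abel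
              · have e3 : th J (y0 - z) = g (e x).1 - (e x).2 := by
                  rw [map_sub, ← hyy0, ← h2]; abel
                rw [map_sub, e3, th_apply, map_sub, G.JJ]
                module)
        simp only [LinearMap.comp_apply, LinearEquiv.coe_coe, LinearMap.prodMap_apply,
              LinearMap.smul_apply, LinearEquiv.prodComm_apply, Prod.fst_swap, Prod.snd_swap,
              LinearEquiv.apply_symm_apply] at this
        rw [D.mk_inner, inner_smul_right] at this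
        exact this
      have a1 := hs 1 (Or.inl rfl)
      have a2 := hs (-1) (Or.inr rfl)
      have a3 := hs' 1 (Or.inl rfl)
      have a4 := hs' (-1) (Or.inr rfl)
      refine ⟨by linarith, by linarith, by linarith, by linarith⟩
    have hx' : x0 ≠ 0 ∨ x1 ≠ 0 := by
      by_contra hcon
      push Not at hcon
      apply hx
      rw [hcon.1, hcon.2]
      exact map_zero e.symm
    have hz : z0 = 0 ∧ z1 = 0 := by
      rcases hx' with h0 | h0
      · exact ⟨G.irr x0 z0 h0 fun g h1 h2 h3 => (key g h1 h2 h3).1,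
          G.irr x0 z1 h0 fun g h1 h2 h3 => (key g h1 h2 h3).2.2.2⟩
      · exact ⟨G.irr x1 z0 h0 fun g h1 h2 h3 => (key g h1 h2 h3).2.2.1,
          G.irr x1 z1 h0 fun g h1 h2 h3 => (key g h1 h2 h3).2.1⟩
    rw [hz.1, hz.2]
    exact map_zero e.symm
  lin U _ _ F hF1 hF2 := by
    have hneg : ∀ v, -J (th J v) = th J (-J v) := by
      intro v; rw [map_neg, G.th_J]
    have hadd : ∀ f g, hf J (th J f + th J g) = th J (hf J (f + g)) := by
      intro f g; rw [← map_add, G.hf_th, G.th_hf]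
    obtain ⟨A0, hA0⟩ := G.lin U (fun v => F (e.symm (th J v, 0)))
      (fun v hv => by
        rw [← hF1 _ (D.mn_left G hv), Dbl.neg_mk, map_neg, neg_zero])
      (fun f g hf' hg hc h0 => by
        have h1 := hF2 _ _ (D.mn_left G hf') (D.mn_left G hg) (by
          obtain ⟨z, hz, hzz⟩ := hc
          refine D.cg_mk (th J z) 0 (G.th_mem hz) ⟨-z, L.neg_mem hz, by rw [map_neg]; abel⟩ ?_ ?_
          · rw [← hzz, map_sub]
          · simp) (by rw [D.mk_inner, G.th_inner, h0]; simp)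
        simp only [D.J_mk, Dbl.neg_mk, Dbl.add_mk, D.hf_mk, map_zero, neg_zero, add_zero, hneg,
          hadd] at h1
        exact h1)
    obtain ⟨A1, hA1⟩ := G.lin U (fun v => F (e.symm (0, th J v)))
      (fun v hv => by
        rw [← hF1 _ (D.mn_right G hv), Dbl.neg_mk, map_neg, neg_zero])
      (fun f g hf' hg hc h0 => by
        have h1 := hF2 _ _ (D.mn_right G hf') (D.mn_right G hg) (by
          obtain ⟨z, hz, hzz⟩ := hc
          refine D.cg_mk 0 (th J z) L.zero_mem ⟨z, hz, by abel⟩ ?_ ?_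
          · simp
          · rw [← hzz, map_sub]) (by rw [D.mk_inner, G.th_inner, h0]; simp)
        simp only [D.J_mk, Dbl.neg_mk, Dbl.add_mk, D.hf_mk, map_zero, neg_zero, add_zero, hneg,
          hadd] at h1
        exact h1)
    have e0 : ∀ v, Mn L μ v → F (e.symm (th J v, 0)) = A0 v := hA0
    have e1 : ∀ v, Mn L μ v → F (e.symm (0, th J v)) = A1 v := hA1
    refine ⟨(A0 ∘ₗ hf J) ∘ₗ LinearMap.fst ℝ V V ∘ₗ e.toLinearMap +
      (A1 ∘ₗ hf J) ∘ₗ LinearMap.snd ℝ V V ∘ₗ e.toLinearMap, ?_⟩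
    intro x hx
    simp only [LinearMap.add_apply, LinearMap.comp_apply, LinearEquiv.coe_coe, LinearMap.fst_apply,
      LinearMap.snd_apply]
    rcases D.mn_cases G hx with ⟨v, hv, rfl⟩ | ⟨v, hv, rfl⟩ | ⟨u, w, hu, hw, hc, rfl⟩
    · rw [e0 v hv, e.apply_symm_apply]
      simp only [G.hf_th, map_zero, add_zero]
    · rw [e1 v hv, e.apply_symm_apply]
      simp only [G.hf_th, map_zero, zero_add]
    · have h1 := hF2 _ _ (D.mn_left G hu) (D.mn_right G hw) (by
        obtain ⟨z, hz, hzz⟩ := hc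
        refine D.cg_mk (-u) w (L.neg_mem hu.1) ?_ ?_ ?_
        · exact G.cg_trans (G.cg_symm (G.cg_neg hu.1)) ⟨z, hz, hzz⟩
        · rw [map_neg]; abel
        · abel) (by rw [D.mk_inner]; simp)
      simp only [D.J_mk, Dbl.neg_mk, Dbl.add_mk, D.hf_mk, map_zero, neg_zero, add_zero, zero_add,
        hneg, G.hf_th] at h1
      rw [e0 u hu, e0 _ (G.mn_negJ hu), e1 w hw, e1 _ (G.mn_negJ hw)] at h1
      rw [e.apply_symm_apply]
      simp only
      have h2 : A0 (hf J u) + A1 (hf J w) = (1 / 2 : ℝ) • ((2 : ℝ) • F (e.symm (u, w))) := by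
        rw [h1, hf_apply, hf_apply, map_smul, map_smul, map_sub, map_sub, map_neg, map_neg]
        module
      rw [h2]
      module

/-- The doubled configuration is infinitesimally rigid. -/
theorem rig_dbl (G : Good J L μ) (D : Dbl J L J' L' e) (hd : DiagProp J L μ) :
    Rig L' (2 * μ) := by
  intro a ha
  set b : V → V → V := fun u w => (e (a (e.symm (u, w)))).1 with hb
  set c : V → V → V := fun u w => (e (a (e.symm (u, w)))).2 with hc
  set p : V → V := fun v => (e (a (e.symm (th J v, 0)))).1 with hp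
  set q : V → V := fun v => (e (a (e.symm (th J v, 0)))).2 with hq
  set q' : V → V := fun v => (e (a (e.symm (0, th J v)))).1 with hq'
  set p' : V → V := fun v => (e (a (e.symm (0, th J v)))).2 with hp'
  have hS : Sys J L μ b c p q q' p' := by
    refine ⟨?_, ?_, ?_, ?_, ?_⟩
    · intro u w v hu hw hcg hv h
      have := ha.ct _ _ (D.mn_mk hu hw hcg) (D.mn_left G hv) (by
        rw [D.mk_inner, inner_zero_right, real_inner_comm, h]; ring)
      rw [D.inner_mk, D.inner_mk, inner_zero_right] at this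
      simp only [hb, hp, hq]
      linarith
    · intro u w v hu hw hcg hv h
      have := ha.ct _ _ (D.mn_mk hu hw hcg) (D.mn_right G hv) (by
        rw [D.mk_inner, inner_zero_right, real_inner_comm, h]; ring)
      rw [D.inner_mk, D.inner_mk, inner_zero_right] at this
      simp only [hc, hp', hq']
      linarith
    · intro u w hu hw hcg
      have := ha.self _ (D.mn_mk hu hw hcg)
      rw [D.inner_mk] at this
      exact this
    · intro u w hu hw hcg
      have := ha.ct _ _ (D.mn_mk hu hw hcg) (D.mn_mk hu (G.mn_J hw) (G.cg_trans hcg (G.cg_J hw.1)))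
        (by rw [D.mk_inner, hu.2, G.inner_J_self]; ring)
      rw [D.inner_mk, D.inner_mk] at this
      exact this
    · intro u w hu hw hcg
      have := ha.ct _ _ (D.mn_mk hu hw hcg) (D.mn_mk (G.mn_J hu) hw
        (G.cg_trans (G.cg_symm (G.cg_J hu.1)) hcg))
        (by rw [D.mk_inner, hw.2, G.inner_J_self]; ring)
      rw [D.inner_mk, D.inner_mk] at this
      exact this
  have hP0 : ∀ v, Mn L μ v → ⟪p v + p (-J v), v⟫_ℝ = 0 := fun v hv => hS.P0 G hv
  have hP0' : ∀ v, Mn L μ v → ⟪p' v + p' (-J v), v⟫_ℝ = 0 := fun v hv => (hS.swap G).P0 G hv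
  obtain ⟨A0, hA0, hpA0⟩ := hd p
    (fun v hv => by
      have := ha.self _ (D.mn_left G hv)
      rw [D.inner_mk, inner_zero_right, add_zero] at this
      exact this)
    (fun v v' hv hv' h => by
      have := ha.ct _ _ (D.mn_left G hv) (D.mn_left G hv') (by
        rw [D.mk_inner, G.th_inner, h, inner_zero_left]; ring)
      rw [D.inner_mk, D.inner_mk, inner_zero_right, inner_zero_right, add_zero, add_zero] at this
      exact this) hP0
  obtain ⟨A1, hA1, hpA1⟩ := hd p'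
    (fun v hv => by
      have := ha.self _ (D.mn_right G hv)
      rw [D.inner_mk, inner_zero_right, zero_add] at this
      exact this)
    (fun v v' hv hv' h => by
      have := ha.ct _ _ (D.mn_right G hv) (D.mn_right G hv') (by
        rw [D.mk_inner, G.th_inner, h, inner_zero_left]; ring)
      rw [D.inner_mk, D.inner_mk, inner_zero_right, inner_zero_right, zero_add, zero_add] at this
      exact this) hP0'
  have hS1 := hS.sub A0 A1 hA0 hA1
  have hS2 : Sys J L μ (fun u w => b u w - A0 u) (fun u w => c u w - A1 w)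
      (fun _ => 0) q q' (fun _ => 0) := by
    refine ⟨?_, ?_, hS1.h3, hS1.h4, hS1.h5⟩
    · intro u w v hu hw hcg hv h
      have := hS1.h1 u w v hu hw hcg hv h
      simp only [hpA0 v hv, sub_self] at this
      exact this
    · intro u w v hu hw hcg hv h
      have := hS1.h2 u w v hu hw hcg hv h
      simp only [hpA1 v hv, sub_self] at this
      exact this
  obtain ⟨B, B', hBB, hqB, hqB', hbB, hcB⟩ := hS2.main G
  refine ⟨e.symm.toLinearMap ∘ₗ (LinearMap.prod (A0 ∘ₗ LinearMap.fst ℝ V V + B' ∘ₗ LinearMap.snd ℝ V V)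
    (B ∘ₗ LinearMap.fst ℝ V V + A1 ∘ₗ LinearMap.snd ℝ V V)) ∘ₗ e.toLinearMap, ?_, ?_⟩
  · intro x y
    obtain ⟨x0, x1, rfl⟩ : ∃ u w, x = e.symm (u, w) := ⟨(e x).1, (e x).2, by simp⟩
    obtain ⟨y0, y1, rfl⟩ : ∃ u w, y = e.symm (u, w) := ⟨(e y).1, (e y).2, by simp⟩
    simp only [LinearMap.comp_apply, LinearEquiv.coe_coe, LinearEquiv.apply_symm_apply,
      LinearMap.prod_apply, Function.prod, LinearMap.add_apply, LinearMap.fst_apply, LinearMap.snd_apply]
    rw [D.mk_inner, D.mk_inner]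
    simp only [inner_add_left, inner_add_right]
    have e1 := hA0 x0 y0
    have e2 := hA1 x1 y1
    have e3 := hBB x0 y1
    have e4 := hBB y0 x1
    have e5 := real_inner_comm (B' x1) y0
    have e6 := real_inner_comm (B y0) x1
    linarith
  · intro x hx
    simp only [LinearMap.comp_apply, LinearEquiv.coe_coe,
      LinearMap.prod_apply, Function.prod, LinearMap.add_apply, LinearMap.fst_apply, LinearMap.snd_apply]
    apply e.injective
    rw [e.apply_symm_apply]
    rcases D.mn_cases G hx with ⟨v, hv, rfl⟩ | ⟨v, hv, rfl⟩ | ⟨u, w, hu, hw, hcg, rfl⟩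
    · rw [e.apply_symm_apply]
      simp only [map_zero, add_zero]
      exact Prod.ext (hpA0 v hv) (hqB v hv)
    · rw [e.apply_symm_apply]
      simp only [map_zero, zero_add]
      exact Prod.ext (hqB' v hv) (hpA1 v hv)
    · rw [e.apply_symm_apply]
      have h1 := hbB u w hu hw hcg
      have h2 := hcB u w hu hw hcg
      refine Prod.ext ?_ ?_
      · change b u w = _
        rw [sub_eq_iff_eq_add] at h1
        rw [h1, add_comm]
      · change c u w = _
        rw [sub_eq_iff_eq_add] at h2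
        exact h2

end dbl

end Pool.Agent.R761.BW
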