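import Pool.Agent.R761.BW.Abs

/-!
# Barnes-Wall lattices: the concrete realization
-/

set_option autoImplicit false

namespace Pool.Agent.R761.BW

open scoped InnerProductSpace

/-- `ℂ^(2^n)`, the coordinates being indexed by the words of length `n` in `{0, 1}`. -/
abbrev E (n : ℕ) : Type := EuclideanSpace ℂ (Fin n → Fin 2)

/-- The matrix `M`. -/
def M : Matrix (Fin 2) (Fin 2) ℂ := !![1, 1; 0, 1 + Complex.I]

/-- The Kronecker power `M^{⊗ n}`. -/
def kpow (n : ℕ) : Matrix (Fin n → Fin 2) (Fin n → Fin 2) ℂ := fun r c => ∏ j, M (r j) (c j)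

/-- The rows of the Kronecker power, as vectors. -/
def row (n : ℕ) (r : Fin n → Fin 2) : E n := WithLp.toLp 2 (kpow n r)

/-- The `ℤ[i]`-span of the rows. -/
def bw (n : ℕ) : AddSubgroup (E n) where
  carrier := {x | ∃ z : (Fin n → Fin 2) → GaussianInt, x = ∑ r, (z r : ℂ) • row n r}
  zero_mem' := ⟨0, by simp⟩
  add_mem' := by
    rintro x y ⟨z, rfl⟩ ⟨z', rfl⟩
    refine ⟨z + z', ?_⟩
    rw [← Finset.sum_add_distrib]
    refine Finset.sum_congr rfl fun r _ => ?_
    rw [Pi.add_apply, map_add, add_smul]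
  neg_mem' := by
    rintro x ⟨z, rfl⟩
    refine ⟨-z, ?_⟩
    rw [← Finset.sum_neg_distrib]
    refine Finset.sum_congr rfl fun r _ => ?_
    rw [Pi.neg_apply, map_neg, neg_smul]

/-- multiplication by `i` -/
noncomputable def mulI (n : ℕ) : E n →ₗ[ℝ] E n :=
  ((Complex.I • LinearMap.id : E n →ₗ[ℂ] E n)).restrictScalars ℝ

theorem mulI_apply (n : ℕ) (x : E n) : mulI n x = Complex.I • x := rfl

/-- splitting of the coordinates by the first letter -/
noncomputable def spl (n : ℕ) : E (n + 1) ≃ₗ[ℝ] E n × E n where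
  toFun x := (WithLp.toLp 2 fun c => x (Fin.cons 0 c), WithLp.toLp 2 fun c => x (Fin.cons 1 c))
  invFun p := WithLp.toLp 2 fun c => if c 0 = 0 then p.1 (Fin.tail c) else p.2 (Fin.tail c)
  map_add' x y := rfl
  map_smul' t x := rfl
  left_inv x := by
    ext c
    simp only
    by_cases h : c 0 = 0
    · rw [if_pos h]
      conv_rhs => rw [← Fin.cons_self_tail c, h]
    · rw [if_neg h]
      have h1 : c 0 = 1 := by omega
      conv_rhs => rw [← Fin.cons_self_tail c, h1]
  right_inv p := by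
    ext c <;> simp

theorem sum_cons {A : Type*} [AddCommMonoid A] (n : ℕ) (f : (Fin (n + 1) → Fin 2) → A) :
    ∑ c, f c = ∑ c : Fin n → Fin 2, f (Fin.cons 0 c) + ∑ c : Fin n → Fin 2, f (Fin.cons 1 c) := by
  rw [← (Fin.consEquiv (fun _ : Fin (n + 1) => Fin 2)).sum_comp, Fintype.sum_prod_type,
    Fin.sum_univ_two]
  rfl

theorem inner_E (n : ℕ) (x y : E n) : ⟪x, y⟫_ℝ = ∑ c, ((starRingEnd ℂ) (x c) * y c).re := by
  rw [PiLp.inner_apply]
  refine Finset.sum_congr rfl fun c _ => ?_
  rw [Complex.inner, mul_comm]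

theorem kpow_cons (n : ℕ) (i j : Fin 2) (r c : Fin n → Fin 2) :
    kpow (n + 1) (Fin.cons i r) (Fin.cons j c) = M i j * kpow n r c := by
  unfold kpow
  rw [Fin.prod_univ_succ]
  simp

theorem spl_row0 (n : ℕ) (r : Fin n → Fin 2) : spl n (row (n + 1) (Fin.cons 0 r)) =
    (row n r, row n r) := by
  refine Prod.ext ?_ ?_
  · ext c
    change kpow (n + 1) (Fin.cons 0 r) (Fin.cons 0 c) = kpow n r c
    rw [kpow_cons]; simp [M]
  · ext c
    change kpow (n + 1) (Fin.cons 0 r) (Fin.cons 1 c) = kpow n r c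
    rw [kpow_cons]; simp [M]

theorem spl_row1 (n : ℕ) (r : Fin n → Fin 2) : spl n (row (n + 1) (Fin.cons 1 r)) =
    (0, (1 + Complex.I) • row n r) := by
  refine Prod.ext ?_ ?_
  · ext c
    change kpow (n + 1) (Fin.cons 1 r) (Fin.cons 0 c) = 0
    rw [kpow_cons]; simp [M]
  · ext c
    change kpow (n + 1) (Fin.cons 1 r) (Fin.cons 1 c) = (1 + Complex.I) * kpow n r c
    rw [kpow_cons]; simp [M]

theorem spl_smul (n : ℕ) (a : ℂ) (x : E (n + 1)) : spl n (a • x) = a • spl n x := rfl

theorem spl_sum (n : ℕ) (z : (Fin (n + 1) → Fin 2) → GaussianInt) :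
    spl n (∑ r, (z r : ℂ) • row (n + 1) r) =
      (∑ r, (z (Fin.cons 0 r) : ℂ) • row n r, ∑ r, (z (Fin.cons 0 r) : ℂ) • row n r +
        (1 + Complex.I) • ∑ r, (z (Fin.cons 1 r) : ℂ) • row n r) := by
  rw [sum_cons, map_add, map_sum, map_sum]
  simp only [spl_smul, spl_row0, spl_row1]
  simp only [Prod.smul_mk, smul_zero]
  refine Prod.ext ?_ ?_
  · rw [Prod.fst_add, Prod.fst_sum, Prod.fst_sum]
    simp
  · rw [Prod.snd_add, Prod.snd_sum, Prod.snd_sum, Finset.smul_sum]
    congr 1
    refine Finset.sum_congr rfl fun r _ => ?_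
    rw [smul_comm]

theorem th_mulI (n : ℕ) (x : E n) : th (mulI n) x = (1 + Complex.I) • x := by
  rw [th_apply, mulI_apply, add_smul, one_smul]

theorem dbl_bw (n : ℕ) : Dbl (mulI n) (bw n) (mulI (n + 1)) (bw (n + 1)) (spl n) where
  he x y := by
    rw [inner_E, inner_E, inner_E, sum_cons]
    rfl
  hJ x := rfl
  hL x := by
    constructor
    · rintro ⟨z, rfl⟩
      rw [spl_sum]
      refine ⟨⟨_, rfl⟩, ∑ r, (z (Fin.cons 1 r) : ℂ) • row n r, ⟨_, rfl⟩, ?_⟩
      rw [th_mulI]
      simp only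
      abel
    · rintro ⟨⟨z0, h0⟩, y, ⟨z1, rfl⟩, h1⟩
      refine ⟨fun r => if r 0 = 0 then z0 (Fin.tail r) else z1 (Fin.tail r), ?_⟩
      apply (spl n).injective
      rw [spl_sum]
      simp only [Fin.cons_zero, Fin.tail_cons, if_true, one_ne_zero, if_false]
      refine Prod.ext h0 ?_
      rw [← h0, ← th_mulI, ← h1]
      simp

/-- The base of the recursion. -/
theorem inner_E0 (x y : E 0) : ⟪x, y⟫_ℝ = ((starRingEnd ℂ) (x default) * y default).re := by
  rw [inner_E, Fintype.sum_eq_single default fun c hc => absurd (Subsingleton.elim c default) hc]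

theorem mem_bw0 (x : E 0) : x ∈ bw 0 ↔ ∃ z : GaussianInt, x default = (z : ℂ) := by
  constructor
  · rintro ⟨z, rfl⟩
    refine ⟨z default, ?_⟩
    rw [Fintype.sum_eq_single default fun c hc => absurd (Subsingleton.elim c default) hc]
    simp [row, kpow]
  · rintro ⟨z, hz⟩
    refine ⟨fun _ => z, ?_⟩
    rw [Fintype.sum_unique]
    ext c
    rw [Subsingleton.elim c default, hz]
    simp [row, kpow]

theorem mn_E0 (x : E 0) (h : Mn (bw 0) 1 x) :
    x default = 1 ∨ x default = Complex.I ∨ x default = -1 ∨ x default = -Complex.I := by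
  obtain ⟨h1, h2⟩ := h
  obtain ⟨z, hz⟩ := (mem_bw0 x).mp h1
  rw [inner_E0, hz] at h2
  have h3 : z.re * z.re + z.im * z.im = 1 := by
    have : ((z.re * z.re + z.im * z.im : ℤ) : ℝ) = 1 := by
      rw [← h2]
      simp [Complex.mul_re]
    exact_mod_cast this
  rw [hz]
  have h4 : z.re ≤ 1 := by nlinarith [mul_self_nonneg z.im]
  have h5 : -1 ≤ z.re := by nlinarith [mul_self_nonneg z.im]
  have h6 : z.im ≤ 1 := by nlinarith [mul_self_nonneg z.re]
  have h7 : -1 ≤ z.im := by nlinarith [mul_self_nonneg z.re]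
  have h8 : ∀ a b : ℤ, z.re = a → z.im = b → (z : ℂ) = (a : ℂ) + (b : ℂ) * Complex.I := by
    intro a b ha hb
    rw [GaussianInt.toComplex_def, ha, hb]
  have h9 : (z.re = 1 ∧ z.im = 0) ∨ (z.re = 0 ∧ z.im = 1) ∨ (z.re = -1 ∧ z.im = 0) ∨
      (z.re = 0 ∧ z.im = -1) := by
    have h10 : z.re = -1 ∨ z.re = 0 ∨ z.re = 1 := by omega
    have h11 : z.im = -1 ∨ z.im = 0 ∨ z.im = 1 := by omega
    rcases h10 with h | h | h <;> rcases h11 with h' | h' | h' <;> rw [h, h'] at h3 <;>
      simp_all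
  rcases h9 with ⟨ha, hb⟩ | ⟨ha, hb⟩ | ⟨ha, hb⟩ | ⟨ha, hb⟩
  · left; rw [h8 _ _ ha hb]; simp
  · right; left; rw [h8 _ _ ha hb]; simp
  · right; right; left; rw [h8 _ _ ha hb]; simp
  · right; right; right; rw [h8 _ _ ha hb]; simp

theorem good0 : Good (mulI 0) (bw 0) 1 where
  JJ x := by
    rw [mulI_apply, mulI_apply, smul_smul, Complex.I_mul_I, neg_one_smul]
  Ji x y := by
    rw [inner_E0, inner_E0]
    simp only [mulI_apply, PiLp.smul_apply, smul_eq_mul, map_mul, Complex.conj_I]
    congr 1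
    linear_combination (-(starRingEnd ℂ) (x default) * y default) * Complex.I_sq
  JL x hx := by
    obtain ⟨z, hz⟩ := (mem_bw0 x).mp hx
    rw [mem_bw0]
    refine ⟨⟨0, 1⟩ * z, ?_⟩
    rw [mulI_apply, PiLp.smul_apply, hz, map_mul]
    simp [GaussianInt.toComplex_def]
  pos := one_pos
  min x hx hx0 := by
    obtain ⟨z, hz⟩ := (mem_bw0 x).mp hx
    rw [inner_E0, hz]
    have h1 : ((starRingEnd ℂ) (z : ℂ) * z).re = ((z.re * z.re + z.im * z.im : ℤ) : ℝ) := by
      simp [Complex.mul_re]
    rw [h1]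
    have h2 : z ≠ 0 := by
      rintro rfl
      apply hx0
      ext c
      rw [Subsingleton.elim c default, hz]
      simp
    have h3 : 1 ≤ z.re * z.re + z.im * z.im := by
      by_contra hcon
      apply h2
      have h4 : z.re * z.re + z.im * z.im ≤ 0 := by omega
      have h5 : z.re * z.re = 0 := by nlinarith [mul_self_nonneg z.re, mul_self_nonneg z.im]
      have h6 : z.im * z.im = 0 := by nlinarith [mul_self_nonneg z.re, mul_self_nonneg z.im]
      exact Zsqrtd.ext (mul_self_eq_zero.mp h5) (mul_self_eq_zero.mp h6)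
    exact_mod_cast h3
  ne := by
    refine ⟨WithLp.toLp 2 fun _ => 1, (mem_bw0 _).mpr ⟨1, by simp⟩, ?_⟩
    rw [inner_E0]; simp
  fin := by
    refine ((Set.toFinite ({1, Complex.I, -1, -Complex.I} : Set ℂ)).image
      (fun t => (WithLp.toLp 2 fun _ => t : E 0))).subset ?_
    intro x hx
    refine ⟨x default, by simpa using mn_E0 x hx, ?_⟩
    ext c
    rw [Subsingleton.elim c default]
  irr x z hx h := by
    have h1 := h LinearMap.id (fun _ _ => rfl) (fun _ => rfl)
      (fun x _ => ⟨0, (bw 0).zero_mem, by simp⟩)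
    have h2 := h (mulI 0) (fun x y => by
        rw [inner_E0, inner_E0]
        simp only [mulI_apply, PiLp.smul_apply, smul_eq_mul, map_mul, Complex.conj_I]
        congr 1
        linear_combination (-(starRingEnd ℂ) (x default) * y default) * Complex.I_sq)
      (fun _ => rfl) (fun x hx => by
        refine ⟨mulI 0 x, ?_, ?_⟩
        · obtain ⟨z, hz⟩ := (mem_bw0 x).mp hx
          rw [mem_bw0]
          refine ⟨⟨0, 1⟩ * z, ?_⟩
          rw [mulI_apply, PiLp.smul_apply, hz, map_mul]
          simp [GaussianInt.toComplex_def]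
        · rw [th_apply, mulI_apply, mulI_apply, smul_smul, Complex.I_mul_I, neg_one_smul]
          abel)
    rw [inner_E0] at h1 h2
    simp only [LinearMap.id_apply, mulI_apply, PiLp.smul_apply, smul_eq_mul] at h1 h2
    have h3 : (starRingEnd ℂ) (z default) * x default = 0 := by
      apply Complex.ext
      · exact h1
      · rw [Complex.zero_im]
        have : ((starRingEnd ℂ) (z default) * (Complex.I * x default)).re =
            -((starRingEnd ℂ) (z default) * x default).im := by
          simp [Complex.mul_re, Complex.mul_im]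
          ring
        linarith
    have hx0 : x default ≠ 0 := by
      intro h
      apply hx
      ext c
      rw [Subsingleton.elim c default, h]; rfl
    have h4 : (starRingEnd ℂ) (z default) = 0 := (mul_eq_zero.mp h3).resolve_right hx0
    have h5 : z default = 0 := by simpa using h4
    ext c
    rw [Subsingleton.elim c default, h5]; rfl
  lin U _ _ F hF1 _ := by
    let e1 : E 0 := WithLp.toLp 2 fun _ => 1
    let ei : E 0 := WithLp.toLp 2 fun _ => Complex.I
    have m1 : Mn (bw 0) 1 e1 := by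
      refine ⟨(mem_bw0 _).mpr ⟨1, by simp [e1]⟩, ?_⟩
      rw [inner_E0]; simp [e1]
    have mi : Mn (bw 0) 1 ei := by
      refine ⟨(mem_bw0 _).mpr ⟨⟨0, 1⟩, by simp [ei, GaussianInt.toComplex_def]⟩, ?_⟩
      rw [inner_E0]; simp [ei]
    refine ⟨{ toFun := fun x => (x default).re • F e1 + (x default).im • F ei
              map_add' := fun x y => by simp only [PiLp.add_apply, Complex.add_re, Complex.add_im]; module
              map_smul' := fun t x => by
                simp only [PiLp.smul_apply, Complex.real_smul, Complex.re_ofReal_mul,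
                  Complex.im_ofReal_mul, RingHom.id_apply]
                module }, ?_⟩
    intro v hv
    simp only [LinearMap.coe_mk, AddHom.coe_mk]
    rcases mn_E0 v hv with h | h | h | h
    · have : v = e1 := by ext c; rw [Subsingleton.elim c default, h]
      rw [h, this]; simp
    · have : v = ei := by ext c; rw [Subsingleton.elim c default, h]
      rw [h, this]; simp
    · have : v = -e1 := by ext c; rw [Subsingleton.elim c default, h]; rfl
      rw [h, this, hF1 _ m1]; simp
    · have : v = -ei := by ext c; rw [Subsingleton.elim c default, h]; rfl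
      rw [h, this, hF1 _ mi]; simp

theorem good_bw (n : ℕ) : Good (mulI n) (bw n) (2 ^ n) := by
  induction n with
  | zero => simpa using good0
  | succ n ih =>
    have := good_dbl ih (dbl_bw n)
    rwa [← pow_succ'] at this

theorem coords0 (v : E 0) (hv : Mn (bw 0) 1 v) (x : E 0) :
    ∃ a b : ℝ, x = a • v + b • mulI 0 v := by
  have h1 : v default * (starRingEnd ℂ) (v default) = 1 := by
    rcases mn_E0 v hv with h | h | h | h <;> rw [h] <;> simp
  refine ⟨((starRingEnd ℂ) (v default) * x default).re,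
    ((starRingEnd ℂ) (v default) * x default).im, ?_⟩
  ext c
  rw [Subsingleton.elim c default]
  simp only [PiLp.add_apply, PiLp.smul_apply, mulI_apply, Complex.real_smul, smul_eq_mul]
  have h2 := Complex.re_add_im ((starRingEnd ℂ) (v default) * x default)
  linear_combination (-x default) * h1 - v default * h2

theorem mn0_all {u v : E 0} (hu : Mn (bw 0) 1 u) (hv : Mn (bw 0) 1 v) :
    v = u ∨ v = mulI 0 u ∨ v = -u ∨ v = -mulI 0 u := by
  have hext : ∀ x y : E 0, x default = y default → x = y := by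
    intro x y h
    ext c
    rw [Subsingleton.elim c default, h]
  have hJu : (mulI 0 u) default = Complex.I * u default := rfl
  have hnu : (-u : E 0) default = - u default := rfl
  have hnJu : (-mulI 0 u : E 0) default = - (Complex.I * u default) := rfl
  rcases mn_E0 v hv with h | h | h | h <;> rcases mn_E0 u hu with h' | h' | h' | h'
  · left; exact hext _ _ (by rw [h, h'])
  · right; right; right; exact hext _ _ (by rw [hnJu, h, h']; simp)
  · right; right; left; exact hext _ _ (by rw [hnu, h, h']; simp)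
  · right; left; exact hext _ _ (by rw [hJu, h, h']; simp)
  · right; left; exact hext _ _ (by rw [hJu, h, h']; simp)
  · left; exact hext _ _ (by rw [h, h'])
  · right; right; right; exact hext _ _ (by rw [hnJu, h, h']; simp)
  · right; right; left; exact hext _ _ (by rw [hnu, h, h']; simp)
  · right; right; left; exact hext _ _ (by rw [hnu, h, h'])
  · right; left; exact hext _ _ (by rw [hJu, h, h']; simp)
  · left; exact hext _ _ (by rw [h, h'])
  · right; right; right; exact hext _ _ (by rw [hnJu, h, h']; simp)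
  · right; right; right; exact hext _ _ (by rw [hnJu, h, h']; simp)
  · right; right; left; exact hext _ _ (by rw [hnu, h, h'])
  · right; left; exact hext _ _ (by rw [hJu, h, h']; simp)
  · left; exact hext _ _ (by rw [h, h'])

theorem diag0 : DiagProp (mulI 0) (bw 0) 1 := by
  intro p hp1 _ hp3
  have G := good0
  have hco := coords0
  have hp : ∀ v, Mn (bw 0) 1 v → ∃ a : ℝ, p v = a • (v - mulI 0 v) := by
    intro v hv
    obtain ⟨a, b, hab⟩ := hco v hv (p v)
    have h1 := hp1 v hv
    rw [hab, th_apply] at h1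
    simp only [inner_add_left, inner_add_right, inner_smul_left, conj_trivial, G.inner_J_self,
      G.inner_J_self', G.Ji, hv.2] at h1
    refine ⟨a, ?_⟩
    have h2 : b = -a := by linarith
    rw [hab, h2]
    module
  have hJ : ∀ v, Mn (bw 0) 1 v → ∀ a : ℝ, p (- mulI 0 v) = a • (- mulI 0 v - mulI 0 (- mulI 0 v)) →
      p v = a • (v - mulI 0 v) := by
    intro v hv a ha
    obtain ⟨a', ha'⟩ := hp v hv
    have h1 := hp3 v hv
    rw [ha, ha', map_neg, G.JJ] at h1
    simp only [inner_add_left, inner_sub_left, inner_smul_left, conj_trivial, inner_neg_left,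
      G.inner_J_self', hv.2] at h1
    have h2 : a = a' := by linarith
    rw [h2, ha']
  obtain ⟨u, hu⟩ := G.ne
  obtain ⟨a, ha⟩ := hp u hu
  have key1 : p (mulI 0 u) = a • (mulI 0 u - mulI 0 (mulI 0 u)) := by
    apply hJ (mulI 0 u) (G.mn_J hu) a
    rw [G.JJ, neg_neg]; exact ha
  have key2 : p (-u) = a • (-u - mulI 0 (-u)) := by
    apply hJ (-u) (G.mn_neg hu) a
    rw [map_neg, neg_neg]; exact key1
  have key3 : p (-mulI 0 u) = a • (-mulI 0 u - mulI 0 (-mulI 0 u)) := by
    apply hJ (-mulI 0 u) (G.mn_negJ hu) a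
    rw [map_neg, G.JJ, neg_neg]; exact key2
  refine ⟨(-a) • mulI 0, ?_, ?_⟩
  · intro x y
    simp only [LinearMap.smul_apply, inner_smul_left, inner_smul_right, conj_trivial]
    rw [G.inner_J]; ring
  · intro v hv
    have h4 : p v = a • (v - mulI 0 v) := by
      have hall := mn0_all hu hv
      rcases hall with rfl | rfl | rfl | rfl
      · exact ha
      · exact key1
      · exact key2
      · exact key3
    rw [h4, th_apply, LinearMap.smul_apply, map_add, G.JJ]
    module

/-- The bar frameworks of the minimal vectors are infinitesimally rigid. -/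
theorem rig_bw (n : ℕ) : Rig (bw (n + 1)) (2 ^ (n + 1)) := by
  induction n with
  | zero =>
    have := rig_dbl good0 (dbl_bw 0) diag0
    simpa using this
  | succ n ih =>
    have := rig_dbl (good_bw (n + 1)) (dbl_bw (n + 1)) (diag_of_rig (good_bw (n + 1)) ih)
    rwa [← pow_succ'] at this

/-- For lattices the first order inequalities of the contacts are equalities. -/
theorem flex_of_ineq {V : Type} [NormedAddCommGroup V] [InnerProductSpace ℝ V]
    {J : V →ₗ[ℝ] V} {L : AddSubgroup V} {μ : ℝ} (G : Good J L μ) (a : V → V)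
    (h0 : ∀ x, Mn L μ x → ⟪a x, x⟫_ℝ = 0)
    (h1 : ∀ x y, Mn L μ x → Mn L μ y → ⟪x, y⟫_ℝ = μ / 2 → ⟪a x, y⟫_ℝ + ⟪a y, x⟫_ℝ ≤ 0) :
    Flex L μ a := by
  classical
  refine ⟨h0, ?_⟩
  set T : Finset (V × V) := (G.fin.toFinset ×ˢ G.fin.toFinset).filter
    (fun p => ⟪p.1, p.2⟫_ℝ = μ / 2) with hT
  have hmem : ∀ p : V × V, p ∈ T ↔ Mn L μ p.1 ∧ Mn L μ p.2 ∧ ⟪p.1, p.2⟫_ℝ = μ / 2 := by
    intro p
    rw [hT, Finset.mem_filter, Finset.mem_product, Set.Finite.mem_toFinset,
      Set.Finite.mem_toFinset]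
    simp only [Set.mem_ofPred_eq, and_assoc]
  have hinv : ∀ p ∈ T, (p.1, p.1 - p.2) ∈ T := by
    intro p hp
    rw [hmem] at hp ⊢
    obtain ⟨hx, hy, hxy⟩ := hp
    refine ⟨hx, ⟨L.sub_mem hx.1 hy.1, ?_⟩, ?_⟩
    · simp only [inner_sub_left, inner_sub_right]
      rw [hx.2, hy.2, real_inner_comm p.1 p.2, hxy]; ring
    · simp only [inner_sub_right]
      rw [hx.2, hxy]; ring
  have hswap : ∀ p ∈ T, (p.2, p.1) ∈ T := by
    intro p hp
    rw [hmem] at hp ⊢
    exact ⟨hp.2.1, hp.1, by rw [real_inner_comm]; exact hp.2.2⟩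
  have s1 : ∑ p ∈ T, ⟪a p.1, p.2⟫_ℝ = 0 := by
    have e1 : ∑ p ∈ T, ⟪a p.1, p.2⟫_ℝ = ∑ p ∈ T, ⟪a p.1, p.1 - p.2⟫_ℝ := by
      refine Finset.sum_nbij' (fun p => (p.1, p.1 - p.2)) (fun p => (p.1, p.1 - p.2)) hinv hinv
        ?_ ?_ ?_
      · intro p _; simp
      · intro p _; simp
      · intro p _; simp
    have e2 : ∑ p ∈ T, ⟪a p.1, p.1 - p.2⟫_ℝ = - ∑ p ∈ T, ⟪a p.1, p.2⟫_ℝ := by
      rw [← Finset.sum_neg_distrib]
      refine Finset.sum_congr rfl fun p hp => ?_
      rw [hmem] at hp
      rw [inner_sub_right, h0 _ hp.1, zero_sub]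
    linarith
  have s2 : ∑ p ∈ T, ⟪a p.2, p.1⟫_ℝ = 0 := by
    rw [← s1]
    exact Finset.sum_nbij' (fun p => (p.2, p.1)) (fun p => (p.2, p.1)) hswap hswap
      (fun p _ => rfl) (fun p _ => rfl) (fun p _ => rfl)
  have s3 : ∑ p ∈ T, (⟪a p.1, p.2⟫_ℝ + ⟪a p.2, p.1⟫_ℝ) = 0 := by
    rw [Finset.sum_add_distrib, s1, s2, add_zero]
  have s4 := (Finset.sum_eq_zero_iff_of_nonpos (fun p hp => by
    rw [hmem] at hp
    exact h1 _ _ hp.1 hp.2.1 hp.2.2)).mp s3
  intro x y hx hy hxy
  exact s4 (x, y) ((hmem _).mpr ⟨hx, hy, hxy⟩)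

end Pool.Agent.R761.BW
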